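import Pool.Agent.U647.LT.Deg
import Pool.Agent.N154.TB.VGeo

/-!
# Rational points and hyperbolicity of projective sets over abelian varieties
-/

set_option autoImplicit false

namespace Pool.Agent.U647.LT

open MvPolynomial FF Filter Topology Pool.Agent.TH143.HE Pool.Agent.Y719.LC
open Pool.Agent.W602.GT (IsForm val coords SubVar Cone)
open Pool.Agent.N154.TB (CurveIn IsConst Zeros BrodyHyp HypFibres TwoForms Elliptic OverLine Factors)
open Pool.Agent.N154.TT (HolToTorus RiemannForm)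
open Pool.Agent.N154.GG (kobayashi projDist PunctIn Extends)
open scoped LinearAlgebra.Projectivization

variable {n : ℕ} {k : Type} [Field k] {ι ι' : Type}

/-- The `L`-rational points of the projective set `X = {F = 0}`. -/
def Points (F : ι → MvPolynomial (Fin (n + 1)) k) (L : Type) [Field L] [Algebra k L] :
    Set (ℙ L (Fin (n + 1) → L)) :=
  {P | ∀ i, aeval P.rep (F i) = 0}

/-- The equations of the complex projective set `X_σ`, for an embedding `σ` of the field `k`. -/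
noncomputable def Conj (σ : k →+* ℂ) (F : ι → MvPolynomial (Fin (n + 1)) k) :
    ι → MvPolynomial (Fin (n + 1)) ℂ := fun i => MvPolynomial.map σ (F i)

theorem isPtP_span {A : Type} [Field A] (φ : k →+* A) {F : ι → MvPolynomial (Fin (n + 1)) k}
    (hF : ∀ i, IsForm (F i)) (x : Fin (n + 1) → A) :
    IsPtP φ (Ideal.span (Set.range F)) x ↔ ∀ i, eval₂ φ x (F i) = 0 := by
  constructor
  · intro h i
    exact h (F i) (Ideal.subset_span ⟨i, rfl⟩) (hF i)
  · intro h G hG _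
    have h1 : Ideal.span (Set.range F) ≤ RingHom.ker (eval₂Hom φ x) := by
      rw [Ideal.span_le]
      rintro _ ⟨i, rfl⟩
      exact h i
    exact h1 hG

theorem isForm_conj {σ : k →+* ℂ} {F : ι → MvPolynomial (Fin (n + 1)) k}
    (hF : ∀ i, IsForm (F i)) (i : ι) : IsForm (Conj σ F i) := by
  obtain ⟨d, hd⟩ := hF i
  exact ⟨d, hd.map σ⟩

theorem mem_cone_iff {σ : k →+* ℂ} {F : ι → MvPolynomial (Fin (n + 1)) k}
    (hF : ∀ i, IsForm (F i)) {x : Fin (n + 1) → ℂ} (hx : x ≠ 0) :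
    x ∈ Cone (Conj σ F) ↔ IsPtP σ (Ideal.span (Set.range F)) x := by
  rw [isPtP_span σ hF]
  have h1 : ∀ i, val x (Conj σ F i) = eval₂ σ x (F i) := by
    intro i
    unfold Pool.Agent.W602.GT.val Conj
    rw [aeval_def, eval₂_map]
    rfl
  constructor
  · intro h i
    rw [← h1]
    exact h.2 i
  · intro h
    exact ⟨hx, fun i => by rw [h1]; exact h i⟩

theorem finPts_of {F : ι → MvPolynomial (Fin (n + 1)) k} {F' : ι' → MvPolynomial (Fin (n + 1)) k}
    [NumberField k] (hF : ∀ i, IsForm (F i)) (hF' : ∀ i, IsForm (F' i))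
    (h : ∀ (L : Type) [Field L] [Algebra k L] [FiniteDimensional k L],
      (Points F L \ Points F' L).Finite) :
    FinPts (Ideal.span (Set.range F)) (Ideal.span (Set.range F')) := by
  intro L _ _ _
  have h0 : FiniteDimensional k L := Module.Finite.of_restrictScalars_finite ℚ k L
  refine (h L).subset ?_
  rintro P ⟨h1, h2⟩
  exact ⟨fun i => (isPtP_span _ hF _).1 h1 i, fun h3 => h2 ((isPtP_span _ hF' _).2 h3)⟩

/-- **Maps of elliptic curves** lie in the exceptional set. -/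
theorem elliptic_in [NumberField k] (σ : k →+* ℂ) {I I' : Ideal (MvPolynomial (Fin (n + 1)) k)}
    (h : FinPts I I') {g : ℂ → ℙ ℂ (Fin (n + 1) → ℂ)} (hg : Pool.Agent.N154.GG.HolMap g)
    (hI : ∀ z, IsPtP σ I (g z).rep) (he : Elliptic g) (hnc : ¬ IsConst g) :
    ∀ z, IsPtP σ I' (g z).rep := by
  obtain ⟨L, hL⟩ := he
  have hrep : ∀ p : ℙ ℂ (Fin (n + 1) → ℂ), Pool.Agent.TH143.EL.Rep p p.rep := fun p =>
    ⟨p.rep_nonzero, (Projectivization.mk_rep p).symm⟩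
  have h1 := torus_of_fin σ h L.ω₁ L.ω₂ L.indep g (el_hol hg)
    (fun z => hL _ L.ω₁_mem_lattice z) (fun z => hL _ L.ω₂_mem_lattice z)
    (fun z => (inV_cI (hrep (g z))).2 (hI z)) (by
      by_contra hcon
      push Not at hcon
      exact hnc hcon)
  exact fun z => (inV_cI (hrep (g z))).1 (h1 z)

variable {m d : ℕ} {Λ : Submodule ℤ (Fin m → ℂ)} {H : (Fin m → ℂ) → (Fin m → ℂ) → ℂ}
  {α : (Fin (n + 1) → ℂ) → (Fin m → ℂ) ⧸ Λ} {κ : Type} {kk : κ → ℕ}
  {η : κ → (Fin (n + 1) → ℂ) → (Fin (n + 1) → ℂ) → (Fin (n + 1) → ℂ) → ℂ} {γ : Type}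
  {G : γ → MvPolynomial (Fin (n + 1)) ℂ}

/-- the general theorem -/
theorem hyp_main [NumberField k] [DiscreteTopology Λ] [IsZLattice ℝ Λ] (σ : k →+* ℂ)
    {F : ι → MvPolynomial (Fin (n + 1)) k} {F' : ι' → MvPolynomial (Fin (n + 1)) k}
    (hF : ∀ i, IsForm (F i)) (hF' : ∀ i, IsForm (F' i)) (hG : ∀ i, IsForm (G i))
    (hH : RiemannForm Λ H) (hα : HolToTorus (Cone (Conj σ F)) Λ α)
    (hη : TwoForms (Cone (Conj σ F)) (Zeros G) d α kk η)
    (hlow : ∀ f, CurveIn (Cone (Conj σ F)) f →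
      ((∀ z w, α (f z).rep = α (f w).rep) ∨ ∀ z, (f z).rep ∈ Zeros G) → Low f)
    (hfin : ∀ (L : Type) [Field L] [Algebra k L] [FiniteDimensional k L],
      (Points F L \ Points F' L).Finite)
    (hno : ∀ f, CurveIn (Cone (Conj σ F) ∩ Cone (Conj σ F')) f →
      ((∀ z w, α (f z).rep = α (f w).rep) ∨ ∀ z, (f z).rep ∈ Zeros G) → IsConst f) :
    ∃ T : Set (ℂ → ℙ ℂ (Fin (n + 1) → ℂ)), T.Finite ∧
      (∀ g ∈ T, CurveIn (Cone (Conj σ F) ∩ Cone (Conj σ F')) g ∧ Elliptic g ∧ OverLine α g) ∧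
      (∀ f, CurveIn (Cone (Conj σ F)) f → IsConst f ∨ Factors T f) ∧
      (∀ f, PunctIn (Conj σ F) f → Extends (Conj σ F) f ∨ ∃ g ∈ T, ∃ s : ℂ → ℂ,
        DifferentiableOn ℂ s {z | z.re < 0} ∧
        ∀ z : ℂ, z.re < 0 → f (Complex.exp z) = g (s z)) ∧
      (∀ ε : ℝ, 0 < ε → ∃ c : ℝ, 0 < c ∧ ∀ p q : ℙ ℂ (Fin (n + 1) → ℂ),
        p.rep ∈ Cone (Conj σ F) → q.rep ∈ Cone (Conj σ F) → ∀ D : ℝ, 0 ≤ D → D ≤ 1 →
        (∀ g ∈ T, ∀ z, D ≤ projDist p (g z)) →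
          ENNReal.ofReal (c * D ^ ε * min D (projDist p q)) ≤ kobayashi (Cone (Conj σ F)) p q) ∧
      (∀ p : ℙ ℂ (Fin (n + 1) → ℂ), (∀ g ∈ T, ∀ z, p ≠ g z) →
        ∃ D : ℝ, 0 < D ∧ D ≤ 1 ∧ ∀ g ∈ T, ∀ z, D ≤ projDist p (g z)) := by
  have hfp := finPts_of hF hF' hfin
  have hmem : ∀ p : ℙ ℂ (Fin (n + 1) → ℂ), p.rep ∈ Cone (Conj σ F) ↔
      IsPtP σ (Ideal.span (Set.range F)) p.rep := fun p => mem_cone_iff hF p.rep_nonzero
  have hmem' : ∀ p : ℙ ℂ (Fin (n + 1) → ℂ), p.rep ∈ Cone (Conj σ F') ↔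
      IsPtP σ (Ideal.span (Set.range F')) p.rep := fun p => mem_cone_iff hF' p.rep_nonzero
  -- the special curves are constant
  have hsp : ∀ f, CurveIn (Cone (Conj σ F)) f →
      ((∀ z w, α (f z).rep = α (f w).rep) ∨ ∀ z, (f z).rep ∈ Zeros G) → IsConst f := by
    intro f hf halt
    by_contra hnc
    have hnc' : ∃ z w, f z ≠ f w := by
      unfold IsConst at hnc
      push Not at hnc
      exact hnc
    obtain ⟨ι₂, Q, hQ, hd, hfQ⟩ := hlow f hf halt
    have h1 := curve_low (rat_of_fin σ hfp) (ell_of_fin σ hfp) hQ hd hf.1 hfQ (fun z => (hmem _).1 (hf.2 z)) hnc'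
    exact hnc (hno f ⟨hf.1, fun z => ⟨hf.2 z, (hmem' _).2 (h1 z)⟩⟩ halt)
  have hB : BrodyHyp (Cone (Conj σ F) ∩ Zeros G) := fun f hf =>
    hsp f ⟨hf.1, fun z => (hf.2 z).1⟩ (Or.inr fun z => (hf.2 z).2)
  have hfib : HypFibres (Cone (Conj σ F)) α := fun f hf h => hsp f hf (Or.inl h)
  obtain ⟨T, h1, h2, h3, h4, h5, h6, -⟩ := Pool.Agent.N154.TB.abel_geo (isForm_conj hF) hG hB hη hH
    hα hfib
  refine ⟨T, h1, fun g hg => ?_, h3, h4, h5, h6⟩
  obtain ⟨g1, g2, g3⟩ := h2 g hg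
  have hnc : ¬ IsConst g := by
    obtain ⟨v, w, hv, hvw⟩ := g3
    intro hc
    refine Pool.Agent.N154.TB.mk_line_ne (L := Λ) (w := w) hv fun z => ?_
    rw [← hvw, ← hvw, hc z 0]
  have h7 := elliptic_in σ hfp g1.1 (fun z => (hmem _).1 (g1.2 z)) g2 hnc
  exact ⟨⟨g1.1, fun z => ⟨g1.2 z, (hmem' _).2 (h7 z)⟩⟩, g2, g3⟩

/-- every entire curve is constant, or factors through an elliptic curve of `X'`, or a special curve
of `X'` lies in its closure -/
theorem hyp_any [NumberField k] [DiscreteTopology Λ] [IsZLattice ℝ Λ] (σ : k →+* ℂ)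
    {F : ι → MvPolynomial (Fin (n + 1)) k} {F' : ι' → MvPolynomial (Fin (n + 1)) k}
    (hF : ∀ i, IsForm (F i)) (hF' : ∀ i, IsForm (F' i)) (hG : ∀ i, IsForm (G i))
    (hH : RiemannForm Λ H) (hα : HolToTorus (Cone (Conj σ F)) Λ α)
    (hη : TwoForms (Cone (Conj σ F)) (Zeros G) d α kk η)
    (hlow : ∀ f, CurveIn (Cone (Conj σ F)) f →
      ((∀ z w, α (f z).rep = α (f w).rep) ∨ ∀ z, (f z).rep ∈ Zeros G) → Low f)
    (hfin : ∀ (L : Type) [Field L] [Algebra k L] [FiniteDimensional k L],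
      (Points F L \ Points F' L).Finite)
    {f : ℂ → ℙ ℂ (Fin (n + 1) → ℂ)} (hf : CurveIn (Cone (Conj σ F)) f) :
    IsConst f ∨ (∃ g, CurveIn (Cone (Conj σ F) ∩ Cone (Conj σ F')) g ∧ Elliptic g ∧
      OverLine α g ∧ ∃ s : ℂ → ℂ, Differentiable ℂ s ∧ ∀ z, f z = g (s z)) ∨
    ∃ h, CurveIn (Cone (Conj σ F) ∩ Cone (Conj σ F')) h ∧ ¬ IsConst h ∧
      ((∀ z w, α (h z).rep = α (h w).rep) ∨ ∀ z, (h z).rep ∈ Zeros G) ∧
      (∀ z, ∀ ε > 0, ∃ w, projDist (h z) (f w) < ε) ∧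
      ∀ z w, projDist (h z) (h w) ≤ 2 * ‖z - w‖ := by
  classical
  have hfp := finPts_of hF hF' hfin
  have hmem : ∀ p : ℙ ℂ (Fin (n + 1) → ℂ), p.rep ∈ Cone (Conj σ F) ↔
      IsPtP σ (Ideal.span (Set.range F)) p.rep := fun p => mem_cone_iff hF p.rep_nonzero
  have hmem' : ∀ p : ℙ ℂ (Fin (n + 1) → ℂ), p.rep ∈ Cone (Conj σ F') ↔
      IsPtP σ (Ideal.span (Set.range F')) p.rep := fun p => mem_cone_iff hF' p.rep_nonzero
  have hX := Pool.Agent.N154.TB.cone_conic (isForm_conj (σ := σ) hF)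
  set V : Set (ℙ ℂ (Fin (n + 1) → ℂ)) := {p | ∀ ε > 0, ∃ w, projDist p (f w) < ε} with hV
  have hVX : ∀ p ∈ V, p.rep ∈ Cone (Conj σ F) := by
    intro p hp
    have h1 : Pool.Agent.Y190.OP.Phi p.rep ∈
        closure (Pool.Agent.N154.TB.TS (Cone (Conj σ F))) := by
      rw [Metric.mem_closure_iff]
      intro ε hε
      obtain ⟨w, hw⟩ := hp ε hε
      refine ⟨_, Pool.Agent.N154.TB.mem_TS (hf.2 w), ?_⟩
      rw [dist_eq_norm]
      exact hw
    rw [(Pool.Agent.N154.TB.isCompact_TF (isForm_conj hF)).isClosed.closure_eq] at h1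
    have h2 := Pool.Agent.N154.TB.rep_toProj hX h1
    rwa [Pool.Agent.N154.GG.toProj_Phi_rep] at h2
  have htri : ∀ p q r : ℙ ℂ (Fin (n + 1) → ℂ), projDist p r ≤ projDist p q + projDist q r := by
    intro p q r
    unfold projDist
    exact norm_sub_le_norm_sub_add_norm_sub _ _ _
  have hVc : ∀ p, (∀ ε > 0, ∃ q ∈ V, projDist p q < ε) → p ∈ V := by
    intro p hp ε hε
    obtain ⟨q, hq, hpq⟩ := hp (ε / 2) (half_pos hε)
    obtain ⟨w, hw⟩ := hq (ε / 2) (half_pos hε)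
    exact ⟨w, by linarith [htri p q (f w)]⟩
  have hfV : ∀ z, f z ∈ V := by
    intro z ε hε
    refine ⟨z, ?_⟩
    unfold projDist
    rw [sub_self, norm_zero]
    exact hε
  rcases Pool.Agent.N154.TB.closed_geo (isForm_conj hF) hG hη hH hα hVX hVc with
    ⟨h, h1, h2, h3, h4, h5⟩ | ⟨S, -, h2, h3, -⟩
  · right
    right
    have hnc' : ∃ z w, h z ≠ h w := by
      by_contra hcon
      push Not at hcon
      exact h2 hcon
    obtain ⟨ι₂, Q, hQ, hd, hfQ⟩ := hlow h h1 h4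
    have h6 := curve_low (rat_of_fin σ hfp) (ell_of_fin σ hfp) hQ hd h1.1 hfQ
      (fun z => (hmem _).1 (h1.2 z)) hnc'
    exact ⟨h, ⟨h1.1, fun z => ⟨h1.2 z, (hmem' _).2 (h6 z)⟩⟩, h2, h4, fun z => h3 z, h5⟩
  · rcases h3 f hf hfV with h4 | ⟨g, hg, s, hs, hfs⟩
    · exact Or.inl h4
    · right
      left
      obtain ⟨g1, g2, g3, g4⟩ := h2 g hg
      have hnc : ¬ IsConst g := by
        obtain ⟨v, w, hv, hvw⟩ := g4
        intro hc
        refine Pool.Agent.N154.TB.mk_line_ne (L := Λ) (w := w) hv fun z => ?_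
        rw [← hvw, ← hvw, hc z 0]
      have h7 := elliptic_in σ hfp g1.1 (fun z => (hmem _).1 (g1.2 z)) g3 hnc
      exact ⟨g, ⟨g1.1, fun z => ⟨g1.2 z, (hmem' _).2 (h7 z)⟩⟩, g3, g4, s, hs, hfs⟩

/-! ### the symmetry of the Kobayashi pseudodistance (`Pool.Agent.N154.TT.kob_symm`) -/

open Pool.Agent.N154.GG (IsChainLength poincareDist)

theorem poincare_symm (s t : ℂ) : poincareDist s t = poincareDist t s := by
  unfold poincareDist
  have h1 : ‖s - t‖ = ‖t - s‖ := norm_sub_rev s t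
  have h2 : ‖1 - (starRingEnd ℂ) s * t‖ = ‖1 - (starRingEnd ℂ) t * s‖ := by
    rw [← RCLike.norm_conj (1 - (starRingEnd ℂ) t * s)]
    congr 1
    rw [map_sub, map_one, map_mul, Complex.conj_conj]
    ring
  rw [h1, h2]

theorem chain_symm {X : Set (Fin (n + 1) → ℂ)} {p q : ℙ ℂ (Fin (n + 1) → ℂ)} {c : ℝ}
    (h : IsChainLength X p q c) : IsChainLength X q p c := by
  obtain ⟨k, r, f, s, t, h0, hl, hi, rfl⟩ := h
  refine ⟨k, fun i => r i.rev, fun i => f i.rev, fun i => t i.rev, fun i => s i.rev, ?_, ?_,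
    fun i => ?_, ?_⟩
  · simp only [Fin.rev_zero]
    exact hl
  · simp only [Fin.rev_last]
    exact h0
  · obtain ⟨e1, e2, e3, e4, e5, e6⟩ := hi i.rev
    refine ⟨e1, e2, e4, e3, ?_, ?_⟩
    · refine e6.trans ?_
      simp only [Fin.rev_castSucc]
    · refine e5.trans ?_
      simp only [Fin.rev_succ]
  · rw [← Equiv.sum_comp Fin.revPerm (fun i => poincareDist (s i) (t i))]
    refine Finset.sum_congr rfl fun i _ => ?_
    rw [Fin.revPerm_apply]
    exact poincare_symm _ _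

theorem kob_symm (X : Set (Fin (n + 1) → ℂ)) (p q : ℙ ℂ (Fin (n + 1) → ℂ)) :
    kobayashi X p q = kobayashi X q p := by
  unfold kobayashi
  apply le_antisymm
  · exact le_iInf₂ fun c hc => iInf₂_le c (chain_symm hc)
  · exact le_iInf₂ fun c hc => iInf₂_le c (chain_symm hc)

/-- the distance of different points is positive -/
theorem projDist_pos {p q : ℙ ℂ (Fin (n + 1) → ℂ)} (h : p ≠ q) : 0 < projDist p q := by
  unfold projDist
  rw [norm_pos_iff, sub_ne_zero]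
  exact fun h1 => h (Pool.Agent.N154.GG.proj_ext h1)

end Pool.Agent.U647.LT
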