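import Pool.Agent.U647.LT.Gpc
import Pool.Agent.W602.GT.Dich
import Pool.Agent.W602.GT.SpDefs
import Pool.Agent.W602.GT.Gm

/-!
# Entire curves with one-dimensional Zariski closure

The Zariski closure of a nonconstant entire curve, if it is of dimension one, is a curve of genus at
most one (the proof is that of `Pool.Agent.Q103.SF.entire_low`, helper103).
-/

set_option autoImplicit false

namespace Pool.Agent.U647.LT

open FF Filter Topology IntermediateField
open Pool.Agent.W602.GT (IsForm val coords val_smul alg_adjoin)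
open Pool.Agent.W603.LV (canDeg)
open Pool.Agent.W603.BP (Ext)
open Pool.Agent.Y221.AP

variable {M : ℕ}

/-- values of forms at the point of the field of meromorphic functions -/
theorem val_cl {f : Fin (M + 1) → ℂ → ℂ} (hf : ∀ i, MeromorphicOn (f i) Om)
    (G : MvPolynomial (Fin (M + 1)) ℂ) :
    val (fun i => cl (f i) (hf i)) G =
      cl (fun t => MvPolynomial.eval (fun i => f i t) G) (mero_eval hf G) := by
  unfold Pool.Agent.W602.GT.val
  let u : Fin (M + 1) → MerS := fun i => ⟨f i, hf i⟩
  have h1 : ((Ideal.Quotient.mkₐ ℂ MJ).comp (MvPolynomial.aeval u)) =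
      MvPolynomial.aeval (fun i => cl (f i) (hf i)) := by
    apply MvPolynomial.algHom_ext
    intro i
    rw [AlgHom.comp_apply, MvPolynomial.aeval_X, MvPolynomial.aeval_X]
    rfl
  rw [← h1, AlgHom.comp_apply]
  change Ideal.Quotient.mk MJ _ = Ideal.Quotient.mk MJ _
  congr 1
  apply Subtype.ext
  funext t
  have h2 : (evS t).comp (MvPolynomial.aeval u) = MvPolynomial.aeval (fun i => f i t) := by
    apply MvPolynomial.algHom_ext
    intro i
    rw [AlgHom.comp_apply, MvPolynomial.aeval_X, MvPolynomial.aeval_X]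
    rfl
  have h3 := DFunLike.congr_fun h2 G
  rw [AlgHom.comp_apply] at h3
  exact h3.trans (by rw [MvPolynomial.aeval_eq_eval])

/-- an entire function which vanishes near infinity after composition with the sine vanishes -/
theorem zero_of_sin {g : ℂ → ℂ} (hg : Differentiable ℂ g)
    (h : ∀ w ∈ Om, g (Complex.sin w) = 0) (t : ℂ) : g t = 0 := by
  have h1 : Differentiable ℂ fun w => g (Complex.sin w) := hg.comp Complex.differentiable_sin
  have h2 : AnalyticOnNhd ℂ (fun w => g (Complex.sin w)) Set.univ :=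
    h1.differentiableOn.analyticOnNhd isOpen_univ
  have h3 : (fun w => g (Complex.sin w)) =ᶠ[𝓝 (2 : ℂ)] fun _ => 0 := by
    filter_upwards [Om_nhds two_mem] with w hw
    exact h w hw
  have h4 := h2.eq_of_eventuallyEq (g := fun _ => (0 : ℂ)) analyticOnNhd_const h3
  obtain ⟨w, rfl⟩ := Complex.sin_surjective t
  exact congrFun h4 w

theorem diff_eval {F : ℂ → Fin (M + 1) → ℂ} (hF : ∀ i, Differentiable ℂ fun z => F z i)
    (G : MvPolynomial (Fin (M + 1)) ℂ) : Differentiable ℂ fun t => MvPolynomial.eval (F t) G := by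
  induction G using MvPolynomial.induction_on with
  | C a => simpa using differentiable_const a
  | add p q hp hq =>
    simp only [map_add]
    exact hp.add hq
  | mul_X p i hp =>
    simp only [map_mul, MvPolynomial.eval_X]
    exact hp.mul (hF i)

/-- the point over the field of the meromorphic functions near infinity -/
theorem exists_mk {F : ℂ → Fin (M + 1) → ℂ} (hF : ∀ i, Differentiable ℂ fun z => F z i)
    (hnc : ∃ i j a b, F a i * F b j ≠ F a j * F b i) :
    ∃ z : Fin (M + 1) → MK, (∀ G : MvPolynomial (Fin (M + 1)) ℂ, val z G = 0 ↔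
      ∀ t, MvPolynomial.eval (F t) G = 0) ∧ ∃ j k, z k ≠ 0 ∧ ¬ MInf (z j / z k) := by
  classical
  have hd : ∀ i, Differentiable ℂ fun w => F (Complex.sin w) i := fun i =>
    (hF i).comp Complex.differentiable_sin
  have hmer : ∀ i, MeromorphicOn (fun w => F (Complex.sin w) i) Om := fun i z _ =>
    ((hd i).analyticAt z).meromorphicAt
  let z : Fin (M + 1) → MK := fun i => cl (fun w => F (Complex.sin w) i) (hmer i)
  have hvz : ∀ G : MvPolynomial (Fin (M + 1)) ℂ, val z G = 0 ↔
      ∀ t, MvPolynomial.eval (F t) G = 0 := by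
    intro G
    have h0 : val z G = cl (fun w => MvPolynomial.eval (fun i => F (Complex.sin w) i) G)
      (mero_eval hmer G) := val_cl hmer G
    have hG := diff_eval hF G
    rw [h0, cl_eq_zero]
    constructor
    · intro h
      apply zero_of_sin hG
      intro w hw
      have h1 : ContinuousAt (fun w => MvPolynomial.eval (fun i => F (Complex.sin w) i) G) w :=
        (hG.comp Complex.differentiable_sin).continuous.continuousAt
      exact eq_of_cod (g := fun _ => (0 : ℂ)) h hw h1 continuousAt_const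
    · intro h
      exact Eventually.of_forall fun w => h (Complex.sin w)
  have hzi : ∀ i, z i = 0 ↔ ∀ t, F t i = 0 := by
    intro i
    have h1 := hvz (MvPolynomial.X i)
    unfold Pool.Agent.W602.GT.val at h1
    simpa only [MvPolynomial.aeval_X, MvPolynomial.eval_X] using h1
  obtain ⟨i, j, a, b, hab⟩ := hnc
  have hi0 : ∃ p, F p i ≠ 0 := by
    by_contra hcon
    push Not at hcon
    apply hab
    rw [hcon a, hcon b, zero_mul, mul_zero]
  obtain ⟨p, hp⟩ := hi0
  have hzi0 : z i ≠ 0 := fun h => hp ((hzi i).1 h p)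
  refine ⟨z, hvz, j, i, hzi0, fun hM => ?_⟩
  set c : ℂ := F p j / F p i with hc
  obtain ⟨w0, hw0⟩ := Complex.sin_surjective p
  -- values at the points `w0 + 2 π n`
  have hval : ∀ w ∈ Om, Complex.sin w = p → Fn (z j / z i) w = c := by
    intro w hw hwp
    have han : AnalyticAt ℂ (fun w => F (Complex.sin w) j / F (Complex.sin w) i) w :=
      ((hd j).analyticAt w).div ((hd i).analyticAt w) (by rwa [hwp])
    have h1 : z j / z i = cl ((fun w => F (Complex.sin w) j) * (fun w => F (Complex.sin w) i)⁻¹)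
        ((hmer j).mul (hmer i).inv) := by
      rw [← cl_mul (hmer j) (hmer i).inv, ← cl_inv (hmer i), div_eq_mul_inv]
    rw [h1]
    have h2 := (Fn_cl ((hmer j).mul (hmer i).inv) hw han).self_of_nhds
    refine h2.trans ?_
    rw [Pi.mul_apply, Pi.inv_apply, hwp, hc, div_eq_mul_inv]
  have hfreq : ∃ᶠ u in 𝓝[≠] (0 : ℂ), Fn (z j / z i) u⁻¹ = c := by
    have htend : Tendsto (fun n : ℕ => (w0 + n * (2 * Real.pi))⁻¹) atTop (𝓝[≠] (0 : ℂ)) := by
      have h1 : Tendsto (fun n : ℕ => w0 + n * (2 * Real.pi)) atTop (Bornology.cobounded ℂ) := by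
        rw [← tendsto_norm_atTop_iff_cobounded]
        have h2 : Tendsto (fun n : ℕ => (n : ℝ) * (2 * Real.pi) + -‖w0‖) atTop atTop :=
          tendsto_atTop_add_const_right _ _
            (tendsto_natCast_atTop_atTop.atTop_mul_const (by positivity))
        refine tendsto_atTop_mono (fun n => ?_) h2
        have h3 : ‖(n : ℂ) * (2 * Real.pi)‖ = n * (2 * Real.pi) := by
          rw [show (n : ℂ) * (2 * Real.pi) = ((n * (2 * Real.pi) : ℝ) : ℂ) by push_cast; ring,
            Complex.norm_real, Real.norm_of_nonneg (by positivity)]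
        have h4 : ‖(n : ℂ) * (2 * Real.pi)‖ ≤ ‖w0 + n * (2 * Real.pi)‖ + ‖w0‖ := by
          have h5 := norm_sub_le (w0 + n * (2 * Real.pi)) w0
          rwa [add_sub_cancel_left] at h5
        linarith
      exact tendsto_inv₀_cobounded'.comp h1
    have h2 : ∀ᶠ n : ℕ in atTop, Fn (z j / z i) ((w0 + n * (2 * Real.pi))⁻¹)⁻¹ = c := by
      have h3 := htend.eventually (ev_inv 1)
      filter_upwards [h3] with n hn
      rw [inv_inv] at hn ⊢
      apply hval _ hn
      rw [Complex.sin_add_nat_mul_two_pi, hw0]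
    exact htend.frequently h2.frequently
  have hev : ∀ᶠ u in 𝓝[≠] (0 : ℂ), Fn (z j / z i) u⁻¹ = c := by
    have h1 : MeromorphicAt (fun u => Fn (z j / z i) u⁻¹ - c) 0 :=
      hM.sub (MeromorphicAt.const c 0)
    have h2 : ∃ᶠ u in 𝓝[≠] (0 : ℂ), Fn (z j / z i) u⁻¹ - c = 0 :=
      hfreq.mono fun u hu => sub_eq_zero.2 hu
    exact (h1.frequently_zero_iff_eventuallyEq_zero.1 h2).mono fun u hu => sub_eq_zero.1 hu
  have heq : z j / z i = algebraMap ℂ MK c := by
    have h1 : ∀ᶠ w in Bornology.cobounded ℂ, Fn (z j / z i) (w⁻¹)⁻¹ = c :=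
      tendsto_inv₀_cobounded'.eventually hev
    obtain ⟨R, -, hR⟩ := (Filter.hasBasis_cobounded_norm).eventually_iff.1 h1
    set x : ℂ := ((max R 1 + 1 : ℝ) : ℂ) with hx
    have hxn : ‖x‖ = max R 1 + 1 := by
      rw [hx, Complex.norm_real, Real.norm_of_nonneg]
      have := le_max_right R 1
      linarith
    have hxR : max R 1 < ‖x‖ := by
      rw [hxn]
      linarith
    have hxO : x ∈ Om := lt_of_le_of_lt (le_max_right R 1) hxR
    have h2 : ∀ᶠ w in 𝓝 x, max R 1 < ‖w‖ :=
      continuous_norm.continuousAt.eventually (lt_mem_nhds hxR)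
    have h3 : ∀ᶠ w in 𝓝 x, Fn (z j / z i) w = c := h2.mono fun w hw => by
      have h4 := hR (x := w) ((le_max_left R 1).trans hw.le)
      rwa [inv_inv] at h4
    have h4 := mero_id2 (Fn_mero _) (mconst c) hxO (freq_of_ev h3)
    rw [← cl_Fn (z j / z i), ← cl_const, cl_eq]
    exact h4
  apply hab
  have h5 : ∀ t, F t j = c * F t i := by
    have h6 : val z (MvPolynomial.X j - MvPolynomial.C c * MvPolynomial.X i) = 0 := by
      unfold Pool.Agent.W602.GT.val
      rw [map_sub, map_mul, MvPolynomial.aeval_X, MvPolynomial.aeval_X, MvPolynomial.aeval_C,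
        ← heq, div_mul_cancel₀ _ hzi0, sub_self]
    intro t
    have h7 := (hvz _).1 h6 t
    simpa [sub_eq_zero] using h7
  rw [h5 a, h5 b]
  ring

/-- **Entire curves with one-dimensional Zariski closure** -/
theorem exists_low {F : ℂ → Fin (M + 1) → ℂ} (hF : ∀ i, Differentiable ℂ fun z => F z i)
    (hnc : ∃ i j a b, F a i * F b j ≠ F a j * F b i)
    (hdim : ∀ (E : Type) [Field E] [Algebra ℂ E] (w : ℕ) (v : Fin (M + 1) → E), v ≠ 0 →
      coords ℂ v = ⊤ → (∀ G : MvPolynomial (Fin (M + 1)) ℂ, IsForm G →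
        (∀ t, MvPolynomial.eval (F t) G = 0) → val v G = 0) → Algebra.trdeg ℂ E = w → w ≤ 1) :
    ∃ (E : Type) (_ : Field E) (_ : Algebra ℂ E) (_ : IsFF ℂ E) (v : Fin (M + 1) → E),
      canDeg ℂ E ≤ 0 ∧ v ≠ 0 ∧ (∀ G : MvPolynomial (Fin (M + 1)) ℂ, IsForm G →
        (val v G = 0 ↔ ∀ t, MvPolynomial.eval (F t) G = 0)) ∧
      ¬ ∃ (u : E) (c : Fin (M + 1) → ℂ), ∀ i, v i = algebraMap ℂ E (c i) * u := by
  classical
  obtain ⟨z, hz, j, k, hk, hjk⟩ := exists_mk hF hnc
  let E := coords ℂ z
  have hmem : ∀ i, z i / z k ∈ E := fun i => subset_adjoin _ _ ⟨i, k, hk, rfl⟩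
  let v : Fin (M + 1) → E := fun i => ⟨z i / z k, hmem i⟩
  have hvz : ∀ i, algebraMap E MK (v i) = z i / z k := fun i => rfl
  have hvk : v k ≠ 0 := by
    intro h0
    have h1 := congrArg (algebraMap E MK) h0
    rw [hvz, map_zero, div_self hk] at h1
    exact one_ne_zero h1
  -- forms
  have hval : ∀ G : MvPolynomial (Fin (M + 1)) ℂ, IsForm G → (val v G = 0 ↔ val z G = 0) := by
    rintro G ⟨d, hd⟩
    have h1 : algebraMap E MK (val v G) = val (fun i => z i / z k) G := by
      unfold Pool.Agent.W602.GT.val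
      rw [← MvPolynomial.aeval_algebraMap_apply]
      rfl
    have h2 : val z G = z k ^ d * val (fun i => z i / z k) G := by
      rw [← val_smul hd (z k)]
      congr 1
      funext i
      field_simp
    rw [h2, mul_eq_zero, or_iff_right (pow_ne_zero _ hk), ← h1, map_eq_zero]
  -- the ratios generate
  have hvgen : coords ℂ v = ⊤ := by
    have h1 : (coords ℂ v).map (IntermediateField.val E) = (⊤ : IntermediateField ℂ E).map
        (IntermediateField.val E) := by
      have h2 : (⊤ : IntermediateField ℂ E).map (IntermediateField.val E) = E := by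
        rw [← AlgHom.fieldRange_eq_map, IntermediateField.fieldRange_val]
      rw [h2]
      show (IntermediateField.adjoin ℂ _).map _ = coords ℂ z
      rw [IntermediateField.adjoin_map]
      unfold coords
      congr 1
      ext u
      constructor
      · rintro ⟨_, ⟨a, b, hb, rfl⟩, rfl⟩
        have hzb : z b ≠ 0 := by
          intro h0
          apply hb
          apply (algebraMap E MK).injective
          rw [hvz, h0, zero_div, map_zero]
        refine ⟨a, b, hzb, ?_⟩
        show algebraMap E MK (v a / v b) = _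
        rw [map_div₀, hvz, hvz]
        field_simp
      · rintro ⟨a, b, hb, rfl⟩
        refine ⟨v a / v b, ⟨a, b, ?_, rfl⟩, ?_⟩
        · intro h0
          have h1 := congrArg (algebraMap E MK) h0
          rw [hvz, map_zero, div_eq_zero_iff] at h1
          exact h1.elim hb hk
        · show algebraMap E MK (v a / v b) = _
          rw [map_div₀, hvz, hvz]
          field_simp
    exact IntermediateField.map_injective _ h1
  have hfs : {z : E | ∃ i j, v j ≠ 0 ∧ z = v i / v j}.Finite := by
    refine (Set.finite_range fun p : Fin (M + 1) × Fin (M + 1) => v p.1 / v p.2).subset ?_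
    rintro _ ⟨i, j, _, rfl⟩
    exact ⟨(i, j), rfl⟩
  have hess : Algebra.EssFiniteType ℂ E := by
    rw [← IntermediateField.fg_top_iff, ← hvgen]
    exact IntermediateField.fg_adjoin_of_finite hfs
  obtain ⟨t, ht⟩ : ∃ w : ℕ, Algebra.trdeg ℂ E = w := by
    have h2 : Algebra.IsAlgebraic (IntermediateField.adjoin ℂ
        {z | ∃ i j, v j ≠ 0 ∧ z = v i / v j}) E := by
      have h3 : IntermediateField.adjoin ℂ {z | ∃ i j, v j ≠ 0 ∧ z = v i / v j} = ⊤ := hvgen
      rw [h3]
      infer_instance
    have h3 := alg_adjoin h2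
    obtain ⟨B, hB, hBb⟩ := exists_isTranscendenceBasis_subset (R := ℂ) (A := E)
      {z : E | ∃ i j, v j ≠ 0 ∧ z = v i / v j}
    have : Finite B := hfs.subset hB
    refine ⟨Nat.card B, ?_⟩
    rw [← hBb.cardinalMk_eq_trdeg, Nat.cast_card]
  have hv0 : v ≠ 0 := fun h => hvk (congrFun h k)
  have ht1 : t ≤ 1 := hdim E t v hv0 hvgen (fun G hG hG0 => (hval G hG).2 ((hz G).2 hG0)) ht
  have hcon : ¬ ∃ (u : E) (c : Fin (M + 1) → ℂ), ∀ i, v i = algebraMap ℂ E (c i) * u := by
    rintro ⟨u, c, huc⟩
    apply hjk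
    have h1 : z j / z k = algebraMap ℂ MK (c j / c k) := by
      rw [← hvz j]
      have h2 : v j = algebraMap ℂ E (c j / c k) := by
        have h3 : v k = 1 := Subtype.ext (div_self hk)
        rw [huc k] at h3
        have hck : algebraMap ℂ E (c k) ≠ 0 := left_ne_zero_of_mul_eq_one h3
        rw [huc j, map_div₀, eq_div_iff hck]
        linear_combination algebraMap ℂ E (c j) * h3
      rw [h2]
      rfl
    rw [h1]
    exact MI.algebraMap_mem _
  have htne0 : t ≠ 0 := by
    intro h0
    rw [h0, Nat.cast_zero] at ht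
    have halg : Algebra.IsAlgebraic ℂ E := trdeg_eq_zero_iff.1 ht
    have hint : Algebra.IsIntegral ℂ E := Algebra.isAlgebraic_iff_isIntegral.1 halg
    choose c hc using fun i => (IsAlgClosed.algebraMap_bijective_of_isIntegral (k := ℂ)
      (K := E)).2 (v i)
    exact hcon ⟨1, c, fun i => by rw [hc, mul_one]⟩
  have ht1 : t = 1 := by omega
  subst ht1
  have hff : IsFF ℂ E := ⟨hess, by rw [ht]; simp⟩
  refine ⟨E, inferInstance, inferInstance, hff, v, ?_, hv0, fun G hG => (hval G hG).trans (hz G),
    hcon⟩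
  by_contra hlt
  rw [not_le] at hlt
  have h1 := gpc E hlt (v j)
  rw [hvz] at h1
  exact hjk h1

end Pool.Agent.U647.LT
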