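import Pool.Agent.U647.LT.Pts
import Pool.Agent.U647.LT.Clo
import Pool.Agent.Y190.OP.Lift
import Pool.Agent.N154.TB.AGeo

/-!
# Rational points and entire curves with one-dimensional Zariski closure

If the projective variety `X` over a number field has only finitely many points outside of the closed
subset `X'` over every number field, then every nonconstant entire curve in `X` whose Zariski closure
is of dimension one lies in `X'`.
-/

set_option autoImplicit false

namespace Pool.Agent.U647.LT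

open MvPolynomial FF Filter Topology Pool.Agent.TH143.HE Pool.Agent.Y719.LC
open Pool.Agent.W602.GT (IsForm val coords SubVar Cone)
open Pool.Agent.W603.LV (canDeg)
open Pool.Agent.N154.TB (CurveIn IsConst Zeros BrodyHyp)
open Pool.Agent.Y190.OP (Phi HolP exists_lift)
open Pool.Agent.TH143.EL (Rep InV HolMap inV_iff inV_of_punct holMap_ext rep_eq')
open scoped LinearAlgebra.Projectivization

variable {N : ℕ} {k : Type} [Field k]

/-- **Points over function fields of genus at most one** -/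
theorem low_case {σ : k →+* ℂ} {I I' : Ideal (MvPolynomial (Fin (N + 1)) k)}
    (hR : RatCurvesIn σ I I') (hE : EllIn σ I I') {E : Type} [Field E] [Algebra ℂ E] [IsFF ℂ E] (hc : canDeg ℂ E ≤ 0)
    {y : Fin (N + 1) → E} (hy : y ≠ 0) (hI : IsPtP ((algebraMap ℂ E).comp σ) I y) :
    IsPtP ((algebraMap ℂ E).comp σ) I' y ∨
      ∃ (v : E) (c : Fin (N + 1) → ℂ), ∀ i, y i = algebraMap ℂ E (c i) * v := by
  rcases hc.lt_or_eq with hc | hc
  · obtain ⟨t, ht⟩ := Pool.Agent.TH143.GE.rational_of_neg hc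
    have htr : Transcendental ℂ t := by
      intro halg
      obtain ⟨f, hf⟩ := IsFF.exists_transcendental (k := ℂ) (K := E)
      have hfm : f ∈ IntermediateField.adjoin ℂ ({t} : Set E) := by
        rw [ht]
        exact IntermediateField.mem_top
      have h0 := IntermediateField.isAlgebraic_adjoin_simple (K := ℂ) halg.isIntegral
      exact hf (IsAlgebraic.algHom (IntermediateField.adjoin ℂ ({t} : Set E)).val
        (h0.isAlgebraic ⟨f, hfm⟩))
    exact Pool.Agent.TH143.GE.rat_case hR htr ht hy hI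
  · exact genusOne_of_ell hE E hc y hy hI

/-- Every closed subvariety of the projective set `{F = 0}` is of dimension at most one. -/
def DimLeOne {n : ℕ} {ι : Type} (F : ι → MvPolynomial (Fin (n + 1)) ℂ) : Prop :=
  ∀ (E : Type) [Field E] [Algebra ℂ E] (w : ℕ) (v : Fin (n + 1) → E), SubVar F E w v → w ≤ 1

theorem el_hol {f : ℂ → ℙ ℂ (Fin (N + 1) → ℂ)} (hf : Pool.Agent.N154.GG.HolMap f) :
    Pool.Agent.TH143.EL.HolMap f := by
  intro a
  obtain ⟨V, g, hV, haV, hg, hfg⟩ := hf a
  refine ⟨fun j z => g z j, fun j => ?_, ?_⟩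
  · exact ((differentiableOn_pi.1 hg) j).analyticAt (hV.mem_nhds haV)
  · filter_upwards [hV.mem_nhds haV] with z hz
    exact hfg z hz

/-- entire homogeneous coordinates, which may have isolated common zeros -/
theorem exists_coords {f : ℂ → ℙ ℂ (Fin (N + 1) → ℂ)} (hf : Pool.Agent.N154.GG.HolMap f) :
    ∃ F : ℂ → Fin (N + 1) → ℂ, (∀ i, Differentiable ℂ fun z => F z i) ∧
      (∀ a, ∀ᶠ z in 𝓝[≠] a, F z ≠ 0) ∧ ∀ z, F z ≠ 0 → Rep (f z) (F z) := by
  obtain ⟨F, hF, ⟨z1, hz1⟩, hFf⟩ := exists_lift (Pool.Agent.N154.GG.holP_of hf)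
  have hFi : ∀ i, Differentiable ℂ fun z => F z i := fun i => (differentiable_pi.1 hF) i
  refine ⟨F, hFi, fun a => ?_, fun z hz => ⟨hz, ?_⟩⟩
  · obtain ⟨i, hi⟩ := Function.ne_iff.1 hz1
    have hi' : F z1 i ≠ 0 := hi
    rcases ((hFi i).analyticAt a).eventually_eq_zero_or_eventually_ne_zero with h | h
    · have h1 : AnalyticOnNhd ℂ (fun z => F z i) Set.univ := fun z _ => (hFi i).analyticAt z
      have h2 := h1.eq_of_eventuallyEq (g := fun _ => (0 : ℂ)) analyticOnNhd_const h
      exact absurd (congrFun h2 z1) hi'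
    · filter_upwards [h] with z hz h0
      exact hz (congrFun h0 i)
  · obtain ⟨c, hc, hc'⟩ := Pool.Agent.Y190.OP.Phi_inj (f z).rep_nonzero hz (hFf z hz)
    conv_lhs => rw [← (f z).mk_rep]
    rw [Projectivization.mk_eq_mk_iff']
    exact ⟨c⁻¹, by rw [hc', smul_smul, inv_mul_cancel₀ hc, one_smul]⟩

theorem inV_span_iff {p : ℙ ℂ (Fin (N + 1) → ℂ)} {G : MvPolynomial (Fin (N + 1)) ℂ}
    (hG : IsForm G) {v : Fin (N + 1) → ℂ} (hv : Rep p v) :
    InV (Ideal.span {G}) p ↔ eval v G = 0 := by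
  rw [inV_iff hv]
  constructor
  · intro h
    exact h G (Ideal.subset_span rfl) hG
  · intro h G' hG' _
    obtain ⟨q, rfl⟩ := Ideal.mem_span_singleton'.1 hG'
    rw [map_mul, h, mul_zero]

/-- The entire curve `f` lies in a projective algebraic set of dimension at most one. -/
def Low (f : ℂ → ℙ ℂ (Fin (N + 1) → ℂ)) : Prop :=
  ∃ (ι : Type) (Q : ι → MvPolynomial (Fin (N + 1)) ℂ), (∀ i, IsForm (Q i)) ∧ DimLeOne Q ∧
    ∀ z i, val (f z).rep (Q i) = 0

/-- **Entire curves in closed subsets of dimension one** -/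
theorem curve_low {σ : k →+* ℂ} {I I' : Ideal (MvPolynomial (Fin (N + 1)) k)}
    (hR : RatCurvesIn σ I I') (hE : EllIn σ I I') {ι : Type} {Q : ι → MvPolynomial (Fin (N + 1)) ℂ}
    (hQ : ∀ i, IsForm (Q i)) (hd : DimLeOne Q) {f : ℂ → ℙ ℂ (Fin (N + 1) → ℂ)}
    (hf : Pool.Agent.N154.GG.HolMap f) (hfQ : ∀ z i, val (f z).rep (Q i) = 0)
    (hI : ∀ z, IsPtP σ I (f z).rep) (hnc : ∃ z w, f z ≠ f w) : ∀ z, IsPtP σ I' (f z).rep := by
  classical
  obtain ⟨F, hFi, hFne, hFf⟩ := exists_coords hf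
  have hf' := el_hol hf
  have hrep : ∀ p : ℙ ℂ (Fin (N + 1) → ℂ), Rep p p.rep := fun p =>
    ⟨p.rep_nonzero, (Projectivization.mk_rep p).symm⟩
  have hvale : ∀ (t : ℂ) (G : MvPolynomial (Fin (N + 1)) ℂ), val (f t).rep G =
      eval (f t).rep G := by
    intro t G
    unfold Pool.Agent.W602.GT.val
    rw [aeval_eq_eval]
  have hev : ∀ G : MvPolynomial (Fin (N + 1)) ℂ, IsForm G →
      ((∀ t, eval (F t) G = 0) ↔ ∀ t, val (f t).rep G = 0) := by
    intro G hG
    constructor
    · intro h t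
      rw [hvale, ← inV_span_iff hG (hrep (f t))]
      apply inV_of_punct hf'
      filter_upwards [hFne t] with z hz
      rw [inV_span_iff hG (hFf z hz)]
      exact h z
    · intro h t
      have h1 : ∀ᶠ z in 𝓝[≠] t, eval (F z) G = 0 := by
        filter_upwards [hFne t] with z hz
        rw [← inV_span_iff hG (hFf z hz), inV_span_iff hG (hrep (f z)), ← hvale]
        exact h z
      have h2 : Tendsto (fun z => eval (F z) G) (𝓝[≠] t) (𝓝 (eval (F t) G)) :=
        ((diff_eval hFi G).continuous.tendsto t).mono_left nhdsWithin_le_nhds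
      exact tendsto_nhds_unique h2 (tendsto_const_nhds.congr' (h1.mono fun z hz => hz.symm))
  have hnc' : ∃ i j a b, F a i * F b j ≠ F a j * F b i := by
    by_contra hcon
    push Not at hcon
    obtain ⟨z1, hz1⟩ := (hFne 0).exists
    have hconst : HolMap fun _ : ℂ => f z1 := by
      intro z
      obtain ⟨g, hg, hgr⟩ := hf' z1
      exact ⟨fun j _ => g j z1, fun j => analyticAt_const,
        Eventually.of_forall fun _ => hgr.self_of_nhds⟩
    have h4 : ∀ z, f z1 = f z := fun z => holMap_ext hconst hf' (by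
      filter_upwards [hFne z] with w hw
      exact rep_eq' (hFf z1 hz1) (hFf w hw) fun i j => hcon i j z1 w)
    obtain ⟨z, w, hzw⟩ := hnc
    exact hzw ((h4 z).symm.trans (h4 w))
  obtain ⟨E, _, _, _, v, h1, h2, h3, h4⟩ := exists_low hFi hnc' (by
    intro E _ _ w v hv hgen hG htr
    exact hd E w v ⟨hv, fun i => hG (Q i) (hQ i) ((hev _ (hQ i)).2 fun t => hfQ t i), hgen, htr⟩)
  have hpt : ∀ J : Ideal (MvPolynomial (Fin (N + 1)) k),
      IsPtP ((algebraMap ℂ E).comp σ) J v ↔ ∀ t, IsPtP σ J (f t).rep := by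
    intro J
    have h5 : ∀ G : MvPolynomial (Fin (N + 1)) k, eval₂ ((algebraMap ℂ E).comp σ) v G =
        val v (MvPolynomial.map σ G) := by
      intro G
      unfold Pool.Agent.W602.GT.val
      rw [aeval_def, eval₂_map]
    have h6 : ∀ (G : MvPolynomial (Fin (N + 1)) k) (t : ℂ), eval₂ σ (f t).rep G =
        val (f t).rep (MvPolynomial.map σ G) := by
      intro G t
      unfold Pool.Agent.W602.GT.val
      rw [aeval_def, eval₂_map]
      rfl
    constructor
    · intro h7 t G hG hGh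
      obtain ⟨d, hd⟩ := hGh
      have h8 := h7 G hG ⟨d, hd⟩
      rw [h5, h3 _ ⟨d, hd.map σ⟩, hev _ ⟨d, hd.map σ⟩] at h8
      rw [h6]
      exact h8 t
    · intro h7 G hG hGh
      obtain ⟨d, hd⟩ := hGh
      rw [h5, h3 _ ⟨d, hd.map σ⟩, hev _ ⟨d, hd.map σ⟩]
      intro t
      rw [← h6]
      exact h7 t G hG ⟨d, hd⟩
  rcases low_case hR hE h1 h2 ((hpt I).2 hI) with h5 | h5
  · exact (hpt I').1 h5
  · exact absurd h5 h4

end Pool.Agent.U647.LT
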