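import Pool.Agent.Y719.LC.Ent
import Pool.Agent.Q103.AR.Dbl
import Pool.Agent.Q103.AR.Crd

/-!
# Rational points from maps of cubic curves

If a projective variety over a number field contains the image of a nonconstant map from a rational
or an elliptic curve over the complex numbers, which is not contained in a closed subset, then it has
infinitely many points outside of the closed subset over some number field. So if these points are
finite in number over all number fields then the images of all one-dimensional complex tori lie in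
the closed subset.
-/

set_option autoImplicit false

namespace Pool.Agent.U647.LT

open MvPolynomial Pool.Agent.TH143.HE Pool.Agent.Y719.LC
open scoped LinearAlgebra.Projectivization

variable {N : ℕ} {k : Type} [Field k]

/-- `X(L)` is finite outside of `X'(L)` for all finite extensions `L` of `k`. -/
def FinPts (I I' : Ideal (MvPolynomial (Fin (N + 1)) k)) : Prop :=
  ∀ (L : Type) [Field L] [NumberField L] [Algebra k L],
    {P : ℙ L (Fin (N + 1) → L) |
      IsPtP (algebraMap k L) I P.rep ∧ ¬ IsPtP (algebraMap k L) I' P.rep}.Finite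

theorem isPtP_smul {L : Type} [Field L] (φ : k →+* L) (I : Ideal (MvPolynomial (Fin (N + 1)) k))
    {c : L} (hc : c ≠ 0) (x : Fin (N + 1) → L) :
    IsPtP φ I (fun j => c * x j) ↔ IsPtP φ I x := by
  unfold IsPtP
  constructor
  · intro h G hG hd
    have h1 := h G hG hd
    obtain ⟨d, hd⟩ := hd
    rw [eval₂_smul_homog _ c x hd] at h1
    exact (mul_eq_zero.1 h1).resolve_left (pow_ne_zero _ hc)
  · intro h G hG hd
    have h1 := h G hG hd
    obtain ⟨d, hd⟩ := hd
    rw [eval₂_smul_homog _ c x hd, h1, mul_zero]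

theorem isPtP_rep {L : Type} [Field L] (φ : k →+* L) (I : Ideal (MvPolynomial (Fin (N + 1)) k))
    {x : Fin (N + 1) → L} (hx : x ≠ 0) :
    IsPtP φ I (Projectivization.mk L x hx).rep ↔ IsPtP φ I x := by
  obtain ⟨a, ha⟩ := Projectivization.exists_smul_eq_mk_rep L x hx
  rw [← ha]
  exact isPtP_smul φ I a.ne_zero x

/-- Infinitely many values of a sequence with finite fibres outside of a finite set of
parameters. -/
theorem infinite_points {L : Type} [Field L] (w : ℕ → Fin (N + 1) → L) {T : Set ℕ}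
    (hT : T.Infinite) (h0 : ∀ n ∈ T, w n ≠ 0)
    (h3 : ∀ c : Fin (N + 1) → L, c ≠ 0 → {n | n ∈ T ∧ ∀ i j, w n i * c j = w n j * c i}.Finite)
    {S : Set (ℙ L (Fin (N + 1) → L))}
    (hS : ∀ n (hn : n ∈ T), Projectivization.mk L (w n) (h0 n hn) ∈ S) : S.Infinite := by
  classical
  intro hfin
  apply hT
  have h4 : T ⊆ ⋃ P ∈ S, {n | n ∈ T ∧ ∀ i j, w n i * P.rep j = w n j * P.rep i} := by
    intro n hn
    rw [Set.mem_iUnion₂]
    refine ⟨Projectivization.mk L (w n) (h0 n hn), hS n hn, hn, fun i j => ?_⟩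
    obtain ⟨a, ha⟩ := Projectivization.exists_smul_eq_mk_rep L (w n) (h0 n hn)
    rw [← ha]
    change w n i * ((a : L) * w n j) = w n j * ((a : L) * w n i)
    ring
  exact (hfin.biUnion fun P _ => h3 P.rep P.rep_nonzero).subset h4

/-- the values of the map `(P, Q)` at a point of the plane -/
def tupAt {L : Type} [Field L] (P Q : Fin (N + 1) → Polynomial L) (x y : L) : Fin (N + 1) → L :=
  fun j => (P j).eval x + (Q j).eval x * y

/-- **Points on the image of a cubic curve.** -/
theorem infinite_of_cubic {L : Type} [Field L] [Algebra k L]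
    {I' : Ideal (MvPolynomial (Fin (N + 1)) k)} {a b : L} {P Q : Fin (N + 1) → Polynomial L}
    (hne : ∃ G ∈ I', (∃ d, G.IsHomogeneous d) ∧ onC (algebraMap k L) a b P Q G ≠ 0)
    (hnc : NCt P Q) (q : ℕ → L × L) (hq : ∀ n, (q n).2 ^ 2 = (q n).1 ^ 3 + a * (q n).1 + b)
    (hinj : Function.Injective fun n => (q n).1) {S : Set (ℙ L (Fin (N + 1) → L))}
    (hS : ∀ x y : L, y ^ 2 = x ^ 3 + a * x + b → ∀ h : tupAt P Q x y ≠ 0,
      ¬ IsPtP (algebraMap k L) I' (tupAt P Q x y) → Projectivization.mk L _ h ∈ S) :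
    S.Infinite := by
  classical
  -- elements with infinitely many zeros vanish
  have hfin : ∀ α β : Polynomial L, ¬ (α = 0 ∧ β = 0) →
      {n | α.eval (q n).1 + β.eval (q n).1 * (q n).2 = 0}.Finite := by
    intro α β hαβ
    by_contra hcon
    apply hαβ
    apply Pool.Agent.Q103.AR.zero_of_infinite (a := a) (b := b)
    refine ((Set.infinite_image_iff hinj.injOn).2 hcon).mono ?_
    rintro _ ⟨n, hn, rfl⟩
    exact ⟨(q n).2, hq n, hn⟩
  let w : ℕ → Fin (N + 1) → L := fun n => tupAt P Q (q n).1 (q n).2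
  have hev : ∀ G : MvPolynomial (Fin (N + 1)) k, ∀ n,
      (onC (algebraMap k L) a b P Q G).eval₂ (Polynomial.eval₂RingHom (RingHom.id L) (q n).1)
        (q n).2 = eval₂ (algebraMap k L) (w n) G := by
    intro G n
    have h1 := onC_eval (algebraMap k L) P Q G (RingHom.id L) (x := (q n).1) (y := (q n).2)
      (by simpa using hq n)
    rw [h1]
    rfl
  obtain ⟨G', hG', hGh', hG0⟩ := hne
  obtain ⟨α, β, hαβ⟩ := onC_degree (algebraMap k L) a b P Q G'
  have hαβ0 : ¬ (α = 0 ∧ β = 0) := by
    rintro ⟨rfl, rfl⟩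
    apply hG0
    rw [hαβ]
    simp
  have hbad1 : {n | eval₂ (algebraMap k L) (w n) G' = 0}.Finite := by
    refine (hfin α β hαβ0).subset fun n hn => ?_
    have h1 := hev G' n
    have hn' : eval₂ (algebraMap k L) (w n) G' = 0 := hn
    rw [hn', hαβ] at h1
    simpa using h1
  have hPQ : ∃ l, ¬ (P l = 0 ∧ Q l = 0) := by
    by_contra hcon
    push Not at hcon
    obtain ⟨i, j, m, n, h⟩ := hnc
    apply h
    have h2 : ∀ (j : Fin (N + 1)) (m : Bool × ℕ), (cond m.1 (P j) (Q j)).coeff m.2 = 0 := by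
      rintro j ⟨m, t⟩
      cases m
      · simp [(hcon j).2]
      · simp [(hcon j).1]
    rw [h2 i m, h2 j m, zero_mul, zero_mul]
  obtain ⟨l, hl⟩ := hPQ
  have hbad2 : {n | w n = 0}.Finite :=
    (hfin (P l) (Q l) hl).subset fun n hn => congrFun hn l
  let T : Set ℕ := ({n | eval₂ (algebraMap k L) (w n) G' = 0} ∪ {n | w n = 0})ᶜ
  have hT : T.Infinite := (hbad1.union hbad2).infinite_compl
  refine infinite_points w hT (fun n hn h => hn (Or.inr h)) (fun c hc => ?_) fun n hn =>
    hS _ _ (hq n) _ fun h => hn (Or.inl (h G' hG' hGh'))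
  obtain ⟨s, hs⟩ := Function.ne_iff.1 hc
  have hs' : c s ≠ 0 := hs
  -- some combination does not vanish
  have h1 : ∃ j, ¬ (Polynomial.C (c s) * P j - Polynomial.C (c j) * P s = 0 ∧
      Polynomial.C (c s) * Q j - Polynomial.C (c j) * Q s = 0) := by
    by_contra hcon
    push Not at hcon
    exact not_NCt_of hs' (fun j => ⟨sub_eq_zero.1 (hcon j).1, sub_eq_zero.1 (hcon j).2⟩) hnc
  obtain ⟨j, hj⟩ := h1
  refine (hfin _ _ hj).subset fun n hn => ?_
  have h2 := hn.2 j s
  simp only [w, tupAt] at h2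
  simp only [Set.mem_ofPred_eq, Polynomial.eval_sub, Polynomial.eval_mul, Polynomial.eval_C]
  linear_combination h2

/-- The `L`-points, outside of `X'`, which are the values at `L`-points of the cubic curve
`y² = x³ + a x + b` of the map with the homogeneous coordinates `P_j (x) + Q_j (x) y`. -/
def CubicPoints {L : Type} [Field L] [Algebra k L] (I' : Ideal (MvPolynomial (Fin (N + 1)) k))
    (a b : L) (P Q : Fin (N + 1) → Polynomial L) : Set (ℙ L (Fin (N + 1) → L)) :=
  {R | ∃ x y : L, y ^ 2 = x ^ 3 + a * x + b ∧ ∃ h : tupAt P Q x y ≠ 0,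
    R = Projectivization.mk L _ h ∧ ¬ IsPtP (algebraMap k L) I' (tupAt P Q x y)}

/-- For all finite extensions `L` of `k` and all nonconstant maps over `L` from plane cubics
`y² = x³ + a x + b` to `X`, only finitely many `L`-points in the image of the `L`-points are outside
of `X'`. -/
def CubicFin (I I' : Ideal (MvPolynomial (Fin (N + 1)) k)) : Prop :=
  ∀ (L : Type) [Field L] [NumberField L] [Algebra k L] (a b : L) (P Q : Fin (N + 1) → Polynomial L),
    (∀ G ∈ I, (∃ d, G.IsHomogeneous d) → onC (algebraMap k L) a b P Q G = 0) → NCt P Q →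
    (CubicPoints I' a b P Q).Finite

theorem cubicFin_of_fin {I I' : Ideal (MvPolynomial (Fin (N + 1)) k)} (h : FinPts I I') :
    CubicFin I I' := by
  intro L _ _ _ a b P Q hz _
  refine (h L).subset ?_
  rintro _ ⟨x, y, hxy, hw, rfl, hI'⟩
  refine ⟨(isPtP_rep _ I _).2 fun G hG hd => ?_, fun h2 => hI' ((isPtP_rep _ I' _).1 h2)⟩
  have h1 := onC_eval (algebraMap k L) P Q G (RingHom.id L) (x := x) (y := y) (by simpa using hxy)
  rw [hz G hG hd] at h1
  rw [Polynomial.eval₂_zero] at h1
  exact h1.symm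

theorem numberField_of [NumberField k] (L : Type) [Field L] [Algebra k L]
    [FiniteDimensional k L] : NumberField L := by
  have hchar : CharZero L := charZero_of_injective_algebraMap (algebraMap k L).injective
  have hfin : FiniteDimensional ℚ L := FiniteDimensional.trans ℚ k L
  exact ⟨⟩

/-- **Finitely many points**: there are no maps from rational curves. -/
theorem rat_of_cub [NumberField k] (σ : k →+* ℂ) {I I' : Ideal (MvPolynomial (Fin (N + 1)) k)}
    (h : CubicFin I I') : RatCurvesIn σ I I' := by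
  rw [ratCurvesIn_iff]
  intro p hp
  let _ : Algebra k ℂ := σ.toAlgebra
  have hp1 : RCur ((algebraMap k ℂ).comp (RingHom.id k)) I I' p := by
    rw [RingHom.comp_id]
    exact hp
  obtain ⟨L, _, _, _, p', hp'⟩ := RCur.spec (k := k) (E := ℂ) (RingHom.id k) hp1
  rw [RingHom.comp_id] at hp'
  have hnf : NumberField L := numberField_of (k := k) L
  obtain ⟨P, Q, h1, h2, h3⟩ := cusp_of_rcur hp'
  refine infinite_of_cubic (S := CubicPoints I' 0 0 P Q) h2 h3
    (fun n => ((n : L) ^ 2, (n : L) ^ 3)) (fun n => ?_) ?_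
    (fun x y hxy hw hI' => ⟨x, y, hxy, hw, rfl, hI'⟩) (h L 0 0 P Q h1 h3)
  · simp only [zero_mul, add_zero]
    ring
  · intro a b hab
    have h4 : ((a ^ 2 : ℕ) : L) = ((b ^ 2 : ℕ) : L) := by
      push_cast
      exact hab
    exact Nat.pow_left_injective two_ne_zero (Nat.cast_injective h4)

/-- **Finitely many points**: there are no maps from elliptic curves. -/
theorem ell_of_cub [NumberField k] (σ : k →+* ℂ) {I I' : Ideal (MvPolynomial (Fin (N + 1)) k)}
    (h : CubicFin I I') : EllIn σ I I' := by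
  intro a b P Q hPQ
  let _ : Algebra k ℂ := σ.toAlgebra
  have hp1 : ECur ((algebraMap k ℂ).comp (RingHom.id k)) I I' a b P Q := by
    rw [RingHom.comp_id]
    exact hPQ
  obtain ⟨L, _, _, _, a', b', P', Q', hp'⟩ := ECur.spec (k := k) (E := ℂ) (RingHom.id k) hp1
  rw [RingHom.comp_id] at hp'
  have hnf : NumberField L := numberField_of (k := k) L
  obtain ⟨L', _, _, _, q, hq, hinj⟩ := Pool.Agent.Q103.AR.exists_points L a' b'
  let _ : Algebra k L' := ((algebraMap L L').comp (algebraMap k L)).toAlgebra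
  have h1 := hp'.map (algebraMap L L')
  exact infinite_of_cubic (k := k) (S := CubicPoints I' _ _ _ _) h1.ne h1.nc q hq hinj
    (fun x y hxy hw hI' => ⟨x, y, hxy, hw, rfl, hI'⟩) (h L' _ _ _ _ h1.zero h1.nc)

/-- **Finitely many points**: there are no maps from rational curves. -/
theorem rat_of_fin [NumberField k] (σ : k →+* ℂ) {I I' : Ideal (MvPolynomial (Fin (N + 1)) k)}
    (h : FinPts I I') : RatCurvesIn σ I I' :=
  rat_of_cub σ (cubicFin_of_fin h)

/-- **Finitely many points**: there are no maps from elliptic curves. -/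
theorem ell_of_fin [NumberField k] (σ : k →+* ℂ) {I I' : Ideal (MvPolynomial (Fin (N + 1)) k)}
    (h : FinPts I I') : EllIn σ I I' :=
  ell_of_cub σ (cubicFin_of_fin h)

/-- **Finitely many points**: one-dimensional complex tori. -/
theorem torus_of_fin [NumberField k] (σ : k →+* ℂ) {I I' : Ideal (MvPolynomial (Fin (N + 1)) k)}
    (h : FinPts I I') : Pool.Agent.TH143.EL.TorusMapsIn (cI σ I) (cI σ I') :=
  torus_of_alg (rat_of_fin σ h) (ell_of_fin σ h)

/-- conversely, if all maps over `L` from rational and elliptic curves lie in `X'` then there are no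
points -/
theorem cubic_empty {L : Type} [Field L] [CharZero L] [Algebra k L]
    {I I' : Ideal (MvPolynomial (Fin (N + 1)) k)} (h : AlgIn (algebraMap k L) I I') {a b : L}
    {P Q : Fin (N + 1) → Polynomial L}
    (hz : ∀ G ∈ I, (∃ d, G.IsHomogeneous d) → onC (algebraMap k L) a b P Q G = 0)
    (hnc : NCt P Q) : CubicPoints I' a b P Q = ∅ := by
  have h1 : ∀ G ∈ I', (∃ d, G.IsHomogeneous d) → onC (algebraMap k L) a b P Q G = 0 := by
    intro G hG hd
    by_contra hne
    by_cases hs : 4 * a ^ 3 + 27 * b ^ 2 = 0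
    · obtain ⟨p, hp⟩ := rcur_of_sing hs hz ⟨G, hG, hd, hne⟩ hnc
      exact h.1 p hp
    · exact h.2 a b P Q ⟨hs, hz, ⟨G, hG, hd, hne⟩, hnc⟩
  rw [Set.eq_empty_iff_forall_notMem]
  rintro _ ⟨x, y, hxy, hw, rfl, hI'⟩
  apply hI'
  intro G hG hd
  have h2 := onC_eval (algebraMap k L) P Q G (RingHom.id L) (x := x) (y := y) (by simpa using hxy)
  rw [h1 G hG hd, Polynomial.eval₂_zero] at h2
  exact h2.symm

end Pool.Agent.U647.LT
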